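import Pool.Agent.Q53.TS.LOW

/-!
# Project TS (helper112), job ASM: assembly
-/

set_option autoImplicit false

namespace Pool.Agent.Q53.TS

open Finset Q112.Sid Q112.TS

lemma homs_one (H : RGraph 3) : (homs (oneEdge 3) H).card = (tup H).card := by
  apply le_antisymm
  · refine card_le_card_of_injOn (fun g : Fin 3 → Fin H.n => g) ?_ fun _ _ _ _ h => h
    intro g hg
    have hg' := mem_coe.1 hg
    exact mem_coe.2 (mem_filter.2 ⟨mem_univ _, (mem_filter.1 hg').2 univ (mem_singleton_self _)⟩)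
  · refine card_le_card_of_injOn (fun g : Fin 3 → Fin H.n => g) ?_ fun _ _ _ _ h => h
    intro g hg
    have hg' := mem_coe.1 hg
    refine mem_coe.2 (mem_filter.2 ⟨mem_univ _, fun e he => ?_⟩)
    have he2 : e = univ := mem_singleton.1 he
    subst he2
    exact (mem_filter.1 hg').2

lemma inj_of_tup {H : RGraph 3} {g : Fin 3 → Fin H.n} (h : g ∈ tup H) : Function.Injective g := by
  unfold tup at h
  have h1 := H.uniform _ (mem_filter.1 h).2
  have h2 : (univ.image g).card = (univ : Finset (Fin 3)).card := by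
    rw [h1]
    rfl
  have h3 := card_image_iff.1 h2
  exact fun a b hab => h3 (mem_coe.2 (mem_univ a)) (mem_coe.2 (mem_univ b)) hab

lemma dens_lt {H : RGraph 3} (hn : 0 < H.n) : density (oneEdge 3) H < 1 := by
  have hn' : (0 : ℝ) < H.n := by exact_mod_cast hn
  unfold density
  rw [div_lt_one (by positivity), homs_one]
  have h1 : (tup H).card < Fintype.card (Fin 3 → Fin H.n) := by
    rw [← card_univ]
    refine card_lt_card (Finset.ssubset_univ_iff.2 ?_)
    intro h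
    have h2 : (fun _ => ⟨0, hn⟩ : Fin 3 → Fin H.n) ∈ tup H := by
      rw [h]
      exact mem_univ _
    have h3 := inj_of_tup h2 (a₁ := 0) (a₂ := 1) rfl
    exact absurd h3 (by decide)
  rw [Fintype.card_fun, Fintype.card_fin, Fintype.card_fin] at h1
  have h2 : (((tup H).card : ℕ) : ℝ) < ((H.n ^ 3 : ℕ) : ℝ) := by exact_mod_cast h1
  push_cast at h2
  exact h2

lemma upper (hH : S_HOM) (hM : S_MAIN) (ℓ : ℕ) (hℓ : 4 ≤ ℓ) :
    sidExp (tightCycle ℓ (by omega)) ≤ ((3 * ℓ + 20 : ℝ) : EReal) := by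
  refine sSup_le ?_
  rintro x ⟨s, hs0, rfl, H, hd, hpos⟩
  rw [EReal.coe_le_coe_iff]
  -- a homomorphism exists
  have hne : (homs (tightCycle ℓ (by omega)) H).Nonempty := by
    rw [nonempty_iff_ne_empty]
    intro h
    unfold density at hpos
    rw [h] at hpos
    simp at hpos
  obtain ⟨φ, hφ⟩ := hne
  have he := hom_edge hφ 0 (by omega)
  have hn : 0 < H.n := lt_of_le_of_lt (Nat.zero_le _) (φ ⟨0, by show 0 < 3 * ℓ; omega⟩).2
  have hT : (tup H).Nonempty := by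
    refine ⟨![φ ⟨0, by show 0 < 3 * ℓ; omega⟩, φ ⟨0 + 1, by show 0 + 1 < 3 * ℓ; omega⟩,
      φ ⟨0 + 2, by show 0 + 2 < 3 * ℓ; omega⟩], ?_⟩
    unfold tup
    refine mem_filter.2 ⟨mem_univ _, ?_⟩
    have h1 : (univ : Finset (Fin 3)).image (![φ ⟨0, by show 0 < 3 * ℓ; omega⟩,
        φ ⟨0 + 1, by show 0 + 1 < 3 * ℓ; omega⟩,
        φ ⟨0 + 2, by show 0 + 2 < 3 * ℓ; omega⟩]) =
        {φ ⟨0, by show 0 < 3 * ℓ; omega⟩, φ ⟨0 + 1, by show 0 + 1 < 3 * ℓ; omega⟩,
          φ ⟨0 + 2, by show 0 + 2 < 3 * ℓ; omega⟩} := by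
      ext x
      simp only [mem_image, mem_univ, true_and, mem_insert, mem_singleton, Fin.exists_fin_succ,
        Fin.exists_fin_zero]
      simp [eq_comm]
    rw [h1]
    exact he
  have hsym : ∀ (σ : Equiv.Perm (Fin 3)) (e : Fin 3 → Fin H.n), e ∈ tup H → e ∘ σ ∈ tup H := by
    intro σ e h
    unfold tup at h ⊢
    refine mem_filter.2 ⟨mem_univ _, ?_⟩
    have h1 : (univ : Finset (Fin 3)).image (e ∘ σ) = univ.image e := by
      rw [← image_image]
      congr 1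
      exact image_univ_of_surjective σ.surjective
    rw [h1]
    exact (mem_filter.1 h).2
  have h1 := hM ℓ hℓ H.n (tup H) hT hsym
  have h2 : ((∑ e ∈ tup H, walks (tup H) (cword ℓ) e e : ℕ) : ℝ) ≤
      ((homs (tightCycle ℓ (by omega)) H).card : ℝ) := by
    exact_mod_cast hH ℓ (by omega) H
  have hn' : (0 : ℝ) < H.n := by exact_mod_cast hn
  set p := density (oneEdge 3) H with hp
  have hp' : p = ((tup H).card : ℝ) / (H.n : ℝ) ^ 3 := by
    rw [hp]
    unfold density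
    rw [homs_one]
    rfl
  have hp1 : p < 1 := dens_lt hn
  have hp0 : 0 < p := by
    rw [hp']
    have : (0 : ℝ) < ((tup H).card : ℝ) := by exact_mod_cast card_pos.2 hT
    positivity
  rw [← hp'] at h1
  have h3 : p ^ (3 * ℓ + 20) ≤ density (tightCycle ℓ (by omega)) H := by
    unfold density
    rw [le_div_iff₀ (by positivity)]
    exact h1.trans h2
  rw [hd, ← Real.rpow_natCast] at h3
  have h4 := (Real.rpow_le_rpow_left_iff_of_base_lt_one hp0 hp1).1 h3
  push_cast at h4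
  exact h4

/-- **Job ASM.** -/
theorem t_ASM : S_ASM := by
  intro hH hL hM
  have hb : ∀ (ℓ : ℕ) (hℓ : 4 ≤ ℓ), (((3 * ℓ - 2 : ℝ)) : EReal) ≤ sidExp (tightCycle ℓ (by omega)) ∧
      sidExp (tightCycle ℓ (by omega)) ≤ (((3 * ℓ + 20 : ℝ)) : EReal) := fun ℓ hℓ =>
    ⟨hL ℓ (by omega), upper hH hM ℓ hℓ⟩
  refine ⟨hb, fun ε hε => ?_⟩
  obtain ⟨N, hN⟩ := exists_nat_gt (20 / ε)
  refine ⟨max 4 N, fun ℓ hℓ h => ?_⟩
  have h4 : 4 ≤ ℓ := le_trans (le_max_left _ _) h
  have hNl : N ≤ ℓ := le_trans (le_max_right _ _) h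
  obtain ⟨h1, h2⟩ := hb ℓ h4
  have hl0 : (0 : ℝ) < ℓ := by
    have : 0 < ℓ := by omega
    exact_mod_cast this
  obtain ⟨r, hr⟩ : ∃ r : ℝ, sidExp (tightCycle ℓ hℓ) = (r : EReal) := by
    refine ⟨(sidExp (tightCycle ℓ hℓ)).toReal, (EReal.coe_toReal ?_ ?_).symm⟩
    · intro h5
      rw [h5] at h2
      exact absurd h2 (not_le.2 (EReal.coe_lt_top _))
    · intro h5
      rw [h5] at h1
      exact absurd h1 (not_le.2 (EReal.bot_lt_coe _))
  rw [hr] at h1 h2 ⊢
  rw [EReal.coe_le_coe_iff] at h1 h2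
  rw [EReal.toReal_coe]
  have h20 : 20 < ε * ℓ := by
    have h6 : 20 / ε < ℓ := lt_of_lt_of_le hN (by exact_mod_cast hNl)
    rw [div_lt_iff₀ hε] at h6
    linarith
  rw [abs_lt]
  constructor
  · rw [lt_sub_iff_add_lt, lt_div_iff₀ hl0]
    nlinarith
  · rw [sub_lt_iff_lt_add, div_lt_iff₀ hl0]
    nlinarith

end Pool.Agent.Q53.TS
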