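import Pool.Agent.Q112.TS.Def

/-!
# Project TS (helper112), job HOM: closed walks give homomorphisms of the tight cycle
-/

set_option autoImplicit false

namespace Pool.Agent.Q53.TS

open Finset Q112.Sid Q112.TS

variable {V : Type} [Fintype V] [DecidableEq V]

/-- the walk with word `w` and values `v` is admissible and goes from `e` to `e'` -/
def Ok (T : Finset (Fin 3 → V)) : List (Fin 3) → (ℕ → V) → (Fin 3 → V) → (Fin 3 → V) → Prop
  | [], _, e, e' => e = e'
  | j :: w, v, e, e' => Function.update e j (v 0) ∈ T ∧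
      Ok T w (fun i => v (i + 1)) (Function.update e j (v 0)) e'

/-- extension of a finite sequence by a constant -/
def ext (d : V) {n : ℕ} (v : Fin n → V) (i : ℕ) : V := if h : i < n then v ⟨i, h⟩ else d

omit [Fintype V] [DecidableEq V] in
lemma ext_cons_zero (d a : V) {n : ℕ} (v : Fin n → V) :
    ext d (Fin.cons a v : Fin (n + 1) → V) 0 = a := by
  unfold ext
  rw [dif_pos (Nat.succ_pos n)]
  rfl

omit [Fintype V] [DecidableEq V] in
lemma ext_cons_succ (d a : V) {n : ℕ} (v : Fin n → V) (i : ℕ) :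
    ext d (Fin.cons a v : Fin (n + 1) → V) (i + 1) = ext d v i := by
  unfold ext
  by_cases h : i < n
  · rw [dif_pos h, dif_pos (Nat.succ_lt_succ h)]
    rfl
  · rw [dif_neg h, dif_neg (fun h' => h (Nat.lt_of_succ_lt_succ h'))]

open Classical in
/-- the number of walks -/
theorem walks_eq (T : Finset (Fin 3 → V)) (d : V) : ∀ (w : List (Fin 3)) (n : ℕ), w.length = n →
    ∀ e e' : Fin 3 → V, walks T w e e' =
      ((univ : Finset (Fin n → V)).filter fun v => Ok T w (ext d v) e e').card := by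
  intro w
  induction w with
  | nil =>
    intro n hn e e'
    subst hn
    simp only [walks, Ok]
    split_ifs with h
    · rw [filter_true_of_mem (fun _ _ => h)]
      simp
    · rw [filter_false_of_mem (fun _ _ => h)]
      simp
  | cons j w ih =>
    intro n hn e e'
    obtain ⟨m, rfl⟩ : ∃ m, n = m + 1 := ⟨w.length, by rw [← hn]; rfl⟩
    have hm : w.length = m := by
      rw [List.length_cons] at hn
      omega
    rw [card_filter, ← Equiv.sum_comp (Fin.consEquiv fun _ : Fin (m + 1) => V),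
      Fintype.sum_prod_type]
    simp only [walks]
    refine sum_congr rfl fun a _ => ?_
    have h1 : ∀ v : Fin m → V, Ok T (j :: w) (ext d ((Fin.consEquiv fun _ : Fin (m + 1) => V)
        (a, v))) e e' ↔ (Function.update e j a ∈ T ∧
          Ok T w (ext d v) (Function.update e j a) e') := by
      intro v
      have h2 : (Fin.consEquiv fun _ : Fin (m + 1) => V) (a, v) = Fin.cons a v := rfl
      rw [h2]
      simp only [Ok, ext_cons_zero, ext_cons_succ]
    simp only [h1]
    by_cases h3 : Function.update e j a ∈ T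
    · rw [if_pos h3, ih m hm, card_filter]
      simp only [h3, true_and]
    · rw [if_neg h3]
      simp only [h3, false_and, if_false, sum_const_zero]

omit [Fintype V] in
/-- the states of an admissible walk -/
theorem Ok_states (T : Finset (Fin 3 → V)) (c : ℕ → Fin 3) (v : ℕ → V) : ∀ (n s : ℕ)
    (e e' : Fin 3 → V), Ok T ((List.range' s n).map c) (fun i => v (s + i)) e e' →
    ∃ S : ℕ → Fin 3 → V, S s = e ∧ S (s + n) = e' ∧
      ∀ k, s ≤ k → k < s + n → S (k + 1) = Function.update (S k) (c k) (v k) ∧ S (k + 1) ∈ T := by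
  intro n
  induction n with
  | zero =>
    intro s e e' h
    exact ⟨fun _ => e, rfl, h, fun k h1 h2 => by omega⟩
  | succ n ih =>
    intro s e e' h
    rw [List.range'_succ, List.map_cons] at h
    obtain ⟨h1, h2⟩ := h
    have h3 : (fun i => v (s + (i + 1))) = fun i => v (s + 1 + i) := by
      funext i
      congr 1
      omega
    rw [h3] at h2
    obtain ⟨S, hS1, hS2, hS3⟩ := ih (s + 1) _ _ h2
    refine ⟨fun k => if k = s then e else S k, if_pos rfl, ?_, fun k hk1 hk2 => ?_⟩
    · simp only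
      rw [if_neg (by omega), ← hS2]
      congr 1
      omega
    · simp only
      rw [if_neg (by omega)]
      by_cases hk : k = s
      · subst hk
        rw [if_pos rfl, hS1]
        exact ⟨rfl, h1⟩
      · rw [if_neg hk]
        exact hS3 k (by omega) (by omega)

/-- the letters -/
def lt3 (k : ℕ) : Fin 3 := ⟨k % 3, Nat.mod_lt _ (by norm_num)⟩

theorem cword_eq (ℓ : ℕ) : ∀ m : ℕ, cword ℓ = (List.range' (3 * m) (3 * ℓ)).map lt3 := by
  induction ℓ with
  | zero => intro m; rfl
  | succ ℓ ih =>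
    intro m
    have h1 : cword (ℓ + 1) = [0, 1, 2] ++ cword ℓ := by
      unfold cword
      rw [List.replicate_succ, List.flatten_cons]
    have h2 : 3 * (ℓ + 1) = 3 * ℓ + 1 + 1 + 1 := by ring
    rw [h1, h2, List.range'_succ, List.range'_succ, List.range'_succ, List.map_cons,
      List.map_cons, List.map_cons, ih (m + 1)]
    have h3 : lt3 (3 * m) = 0 := Fin.ext (by change (3 * m) % 3 = 0; omega)
    have h4 : lt3 (3 * m + 1) = 1 := Fin.ext (by change (3 * m + 1) % 3 = 1; omega)
    have h5 : lt3 (3 * m + 1 + 1) = 2 := Fin.ext (by change (3 * m + 1 + 1) % 3 = 2; omega)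
    rw [h3, h4, h5]
    rfl

omit [Fintype V] in
/-- the states of a closed walk -/
theorem closed_states (T : Finset (Fin 3 → V)) (ℓ : ℕ) (hℓ : 1 ≤ ℓ) (v : ℕ → V)
    (e : Fin 3 → V) (h : Ok T (cword ℓ) v e e) :
    (∀ j : Fin 3, e j = v (3 * ℓ - 3 + j)) ∧
    ∀ k < 3 * ℓ, ∃ g ∈ T, g (lt3 k) = v k ∧
      g (lt3 (k + 1)) = v ((k + 3 * ℓ - 2) % (3 * ℓ)) ∧
      g (lt3 (k + 2)) = v ((k + 3 * ℓ - 1) % (3 * ℓ)) := by
  rw [cword_eq ℓ 0] at h
  have h0 : v = fun i => v (3 * 0 + i) := by
    funext i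
    congr 1
    omega
  rw [h0] at h
  obtain ⟨S, hS1, hS2, hS3⟩ := Ok_states T lt3 v (3 * ℓ) (3 * 0) e e h
  rw [Nat.mul_zero] at hS1
  rw [Nat.mul_zero, Nat.zero_add] at hS2
  have hS : ∀ k < 3 * ℓ, S (k + 1) = Function.update (S k) (lt3 k) (v k) ∧ S (k + 1) ∈ T :=
    fun k hk => hS3 k (by omega) (by omega)
  have hne1 : ∀ k, lt3 k ≠ lt3 (k + 1) := by
    intro k h1
    have h2 : k % 3 = (k + 1) % 3 := congrArg Fin.val h1
    omega
  have hne2 : ∀ k, lt3 k ≠ lt3 (k + 2) := by
    intro k h1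
    have h2 : k % 3 = (k + 2) % 3 := congrArg Fin.val h1
    omega
  have hp : ∀ k, lt3 (k + 3) = lt3 k := by
    intro k
    apply Fin.ext
    change (k + 3) % 3 = k % 3
    omega
  -- the state after three steps
  have hst : ∀ k, k + 2 < 3 * ℓ → S (k + 3) (lt3 k) = v k ∧ S (k + 3) (lt3 (k + 1)) = v (k + 1) ∧
      S (k + 3) (lt3 (k + 2)) = v (k + 2) := by
    intro k hk
    have a1 := (hS k (by omega)).1
    have a2 := (hS (k + 1) (by omega)).1
    have a3 := (hS (k + 2) hk).1
    refine ⟨?_, ?_, ?_⟩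
    · rw [a3, Function.update_of_ne (hne2 k), a2, Function.update_of_ne (hne1 k), a1,
        Function.update_self]
    · rw [a3, Function.update_of_ne (hne1 (k + 1)), a2, Function.update_self]
    · rw [a3, Function.update_self]
  have hend : ∀ j : Fin 3, e j = v (3 * ℓ - 3 + j) := by
    intro j
    have h1 := hst (3 * ℓ - 3) (by omega)
    have h2 : 3 * ℓ - 3 + 3 = 3 * ℓ := by omega
    rw [h2, hS2] at h1
    have e0 : lt3 (3 * ℓ - 3) = 0 := Fin.ext (by change (3 * ℓ - 3) % 3 = 0; omega)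
    have e1 : lt3 (3 * ℓ - 3 + 1) = 1 := Fin.ext (by change (3 * ℓ - 3 + 1) % 3 = 1; omega)
    have e2 : lt3 (3 * ℓ - 3 + 2) = 2 := Fin.ext (by change (3 * ℓ - 3 + 2) % 3 = 2; omega)
    rw [e0, e1, e2] at h1
    fin_cases j
    · exact h1.1
    · exact h1.2.1
    · exact h1.2.2
  refine ⟨hend, fun k hk => ⟨S (k + 1), (hS k hk).2, ?_, ?_, ?_⟩⟩
  · rw [(hS k hk).1, Function.update_self]
  · -- the value two steps ago
    rw [(hS k hk).1, Function.update_of_ne (hne1 k).symm]
    by_cases hk2 : 2 ≤ k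
    · obtain ⟨k, rfl⟩ := Nat.exists_eq_add_of_le' hk2
      have a1 := (hS k (by omega)).1
      have a2 := (hS (k + 1) (by omega)).1
      rw [show k + 2 + 1 = k + 3 from rfl, hp, a2, Function.update_of_ne (hne1 k), a1,
        Function.update_self]
      congr 1
      rw [show k + 2 + 3 * ℓ - 2 = k + 3 * ℓ by omega, Nat.add_mod_right,
        Nat.mod_eq_of_lt (by omega)]
    · have hk3 : k = 0 ∨ k = 1 := by omega
      rcases hk3 with rfl | rfl
      · rw [hS1, hend]
        congr 1
        rw [Nat.mod_eq_of_lt (by omega)]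
        change 3 * ℓ - 3 + (0 + 1) % 3 = _
        omega
      · rw [(hS 0 (by omega)).1, Function.update_of_ne (hne2 0).symm, hS1, hend]
        congr 1
        rw [Nat.mod_eq_of_lt (by omega)]
        change 3 * ℓ - 3 + (1 + 1) % 3 = _
        omega
  · rw [(hS k hk).1, Function.update_of_ne (hne2 k).symm]
    by_cases hk2 : 1 ≤ k
    · obtain ⟨k, rfl⟩ := Nat.exists_eq_add_of_le' hk2
      have a1 := (hS k (by omega)).1
      rw [show k + 1 + 2 = k + 3 from rfl, hp, a1, Function.update_self]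
      congr 1
      rw [show k + 1 + 3 * ℓ - 1 = k + 3 * ℓ by omega, Nat.add_mod_right,
        Nat.mod_eq_of_lt (by omega)]
    · have hk3 : k = 0 := by omega
      subst hk3
      rw [hS1, hend]
      congr 1
      rw [Nat.mod_eq_of_lt (by omega)]
      change 3 * ℓ - 3 + (0 + 2) % 3 = _
      omega

/-- **Job HOM.** -/
theorem t_HOM : S_HOM := by
  classical
  intro ℓ hℓ H
  have hlen : (cword ℓ).length = 3 * ℓ := by
    rw [cword_eq ℓ 0, List.length_map, List.length_range']
  have h1 : ∀ e ∈ tup H, walks (tup H) (cword ℓ) e e =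
      ((univ : Finset (Fin (3 * ℓ) → Fin H.n)).filter fun v =>
        Ok (tup H) (cword ℓ) (ext (e 0) v) e e).card := fun e _ =>
    walks_eq (tup H) (e 0) (cword ℓ) (3 * ℓ) hlen e e
  rw [sum_congr rfl h1, ← card_sigma]
  refine card_le_card_of_injOn (fun x => x.2) ?_ ?_
  · rintro ⟨e, v⟩ hx
    rw [mem_coe, mem_sigma, mem_filter] at hx
    obtain ⟨-, -, hok⟩ := hx
    obtain ⟨-, hk⟩ := closed_states (tup H) ℓ hℓ _ e hok
    rw [mem_coe]
    unfold homs
    rw [mem_filter]
    refine ⟨mem_univ _, ?_⟩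
    intro f hf
    obtain ⟨i, -, hif⟩ := mem_image.1 hf
    subst hif
    -- the last vertex of the edge
    have hv : ∀ (k : ℕ) (h : k < 3 * ℓ), ext (e 0) v k = v ⟨k, h⟩ := fun k h => dif_pos h
    obtain ⟨g, hg, g0, g1, g2⟩ := hk (((i : ℕ) + 2) % (3 * ℓ)) (Nat.mod_lt _ (by omega))
    have hgi : univ.image g ∈ H.edges := by
      unfold tup at hg
      rw [mem_filter] at hg
      exact hg.2
    have hset : (cycEdge ℓ i).image v = univ.image g := by
      have hi := i.2
      have q1 : (((i : ℕ) + 2) % (3 * ℓ) + 3 * ℓ - 2) % (3 * ℓ) = i := by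
        rcases lt_or_ge ((i : ℕ) + 2) (3 * ℓ) with h | h
        · rw [Nat.mod_eq_of_lt h, show (i : ℕ) + 2 + 3 * ℓ - 2 = i + 3 * ℓ by omega,
            Nat.add_mod_right, Nat.mod_eq_of_lt hi]
        · rw [Nat.mod_eq_sub_mod h, Nat.mod_eq_of_lt (by omega : (i : ℕ) + 2 - 3 * ℓ < 3 * ℓ),
            show (i : ℕ) + 2 - 3 * ℓ + 3 * ℓ - 2 = i by omega, Nat.mod_eq_of_lt hi]
      have q2 : (((i : ℕ) + 2) % (3 * ℓ) + 3 * ℓ - 1) % (3 * ℓ) = (i + 1) % (3 * ℓ) := by
        rcases lt_or_ge ((i : ℕ) + 2) (3 * ℓ) with h | h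
        · rw [Nat.mod_eq_of_lt h, show (i : ℕ) + 2 + 3 * ℓ - 1 = i + 1 + 3 * ℓ by omega,
            Nat.add_mod_right]
        · rw [Nat.mod_eq_sub_mod h, Nat.mod_eq_of_lt (by omega : (i : ℕ) + 2 - 3 * ℓ < 3 * ℓ),
            show (i : ℕ) + 2 - 3 * ℓ + 3 * ℓ - 1 = i + 1 by omega]
      rw [q1, hv _ hi] at g1
      rw [q2, hv _ (Nat.mod_lt _ (by omega))] at g2
      rw [hv _ (Nat.mod_lt _ (by omega))] at g0
      ext x
      rw [mem_image, mem_image]
      constructor
      · rintro ⟨w, hw, rfl⟩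
        rw [mem_cycEdge] at hw
        obtain ⟨j, hj⟩ := hw
        fin_cases j
        · refine ⟨_, mem_univ _, g1.trans ?_⟩
          congr 1
          apply Fin.ext
          change (i : ℕ) = w
          rw [hj]
          exact (Nat.mod_eq_of_lt hi).symm
        · refine ⟨_, mem_univ _, g2.trans ?_⟩
          congr 1
          exact Fin.ext hj.symm
        · refine ⟨_, mem_univ _, g0.trans ?_⟩
          congr 1
          exact Fin.ext hj.symm
      · rintro ⟨j, -, rfl⟩
        have hcov : j = lt3 (((i : ℕ) + 2) % (3 * ℓ)) ∨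
            j = lt3 (((i : ℕ) + 2) % (3 * ℓ) + 1) ∨
            j = lt3 (((i : ℕ) + 2) % (3 * ℓ) + 2) := by
          have hj := j.2
          have : (j : ℕ) = (((i : ℕ) + 2) % (3 * ℓ)) % 3 ∨
              (j : ℕ) = ((((i : ℕ) + 2) % (3 * ℓ)) + 1) % 3 ∨
              (j : ℕ) = ((((i : ℕ) + 2) % (3 * ℓ)) + 2) % 3 := by omega
          rcases this with h | h | h
          · exact Or.inl (Fin.ext h)
          · exact Or.inr (Or.inl (Fin.ext h))
          · exact Or.inr (Or.inr (Fin.ext h))
        rcases hcov with h | h | h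
        · rw [h, g0]
          exact ⟨_, mem_cycEdge.2 ⟨2, rfl⟩, rfl⟩
        · rw [h, g1]
          exact ⟨_, mem_cycEdge.2 ⟨0, (Nat.mod_eq_of_lt hi).symm⟩, rfl⟩
        · rw [h, g2]
          exact ⟨_, mem_cycEdge.2 ⟨1, rfl⟩, rfl⟩
    have hfin : (cycEdge ℓ i).image v ∈ H.edges := by
      rw [hset]
      exact hgi
    exact hfin
  · rintro ⟨e, v⟩ hx ⟨e', v'⟩ hx' hvv
    simp only at hvv
    subst hvv
    rw [mem_coe, mem_sigma, mem_filter] at hx hx'
    have h2 := (closed_states (tup H) ℓ hℓ _ e hx.2.2).1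
    have h3 := (closed_states (tup H) ℓ hℓ _ e' hx'.2.2).1
    have hee : e = e' := by
      funext j
      rw [h2 j, h3 j]
      have hj := j.2
      simp only
      unfold ext
      rw [dif_pos (by omega), dif_pos (by omega)]
    subst hee
    rfl

end Pool.Agent.Q53.TS
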