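import Pool.Agent.Q112.TS.Def

/-!
# Project TS (helper112), job LOW: the lower bound for the Sidorenko exponent of tight cycles
-/

set_option autoImplicit false

namespace Pool.Agent.Q53.TS

open Finset Q112.Sid Q112.TS

/-- the `3`-graph of the triples with sum zero modulo `n` -/
def HH (n : ℕ) : RGraph 3 where
  n := n
  edges := univ.filter fun e : Finset (Fin n) => e.card = 3 ∧ n ∣ ∑ v ∈ e, (v : ℕ)
  uniform := by
    intro e he
    rw [mem_filter] at he
    exact he.2.1

lemma mem_HH {n : ℕ} {e : Finset (Fin n)} :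
    e ∈ (HH n).edges ↔ e.card = 3 ∧ n ∣ ∑ v ∈ e, (v : ℕ) := by
  show e ∈ univ.filter _ ↔ _
  rw [mem_filter]
  exact ⟨fun h => h.2, fun h => ⟨mem_univ _, h⟩⟩

/-- the third vertex is determined -/
lemma third {n : ℕ} (a b c c' : Fin n) (h : ({a, b, c} : Finset (Fin n)) ∈ (HH n).edges)
    (h' : ({a, b, c'} : Finset (Fin n)) ∈ (HH n).edges) : c = c' := by
  have key : ∀ x : Fin n, ({a, b, x} : Finset (Fin n)) ∈ (HH n).edges →
      n ∣ (a : ℕ) + b + x := by
    intro x hx
    rw [mem_HH, card_eq_three] at hx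
    obtain ⟨⟨p, q, r, hpq, hpr, hqr, he⟩, hd⟩ := hx
    have hcard : ({a, b, x} : Finset (Fin n)).card = 3 := by
      rw [he]
      exact card_eq_three.2 ⟨p, q, r, hpq, hpr, hqr, rfl⟩
    have hab : a ≠ b := by
      rintro rfl
      rw [insert_eq_of_mem (mem_insert_self _ _)] at hcard
      have := card_le_two (a := a) (b := x)
      omega
    have hax : a ≠ x := by
      rintro rfl
      have h1 : ({a, b, a} : Finset (Fin n)) = {a, b} := by
        ext y
        simp only [mem_insert, mem_singleton]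
        tauto
      rw [h1] at hcard
      have := card_le_two (a := a) (b := b)
      omega
    have hbx : b ≠ x := by
      rintro rfl
      have h1 : ({a, b, b} : Finset (Fin n)) = {a, b} := by
        ext y
        simp only [mem_insert, mem_singleton]
        tauto
      rw [h1] at hcard
      have := card_le_two (a := a) (b := b)
      omega
    rw [sum_insert (by simp [hab, hax]), sum_insert (by simp [hbx]), sum_singleton] at hd
    rw [add_assoc]
    exact hd
  have h1 := key c h
  have h2 := key c' h'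
  have h3 : (a : ℕ) + b + c ≡ (a : ℕ) + b + c' [MOD n] :=
    ((Nat.modEq_zero_iff_dvd).2 h1).trans ((Nat.modEq_zero_iff_dvd).2 h2).symm
  have h4 : (c : ℕ) ≡ c' [MOD n] := Nat.ModEq.add_left_cancel' _ h3
  exact Fin.ext (Nat.ModEq.eq_of_lt_of_lt h4 c.2 c'.2)

lemma third' {n : ℕ} {a b c a' b' c' : Fin n} (ha : a = a') (hb : b = b')
    (h : ({a, b, c} : Finset (Fin n)) ∈ (HH n).edges)
    (h' : ({a', b', c'} : Finset (Fin n)) ∈ (HH n).edges) : c = c' := by
  subst ha hb
  exact third a b c c' h h'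

/-- consecutive vertices form an edge -/
lemma hom_edge {ℓ : ℕ} {hℓ : 1 ≤ ℓ} {H : RGraph 3} {φ : Fin (3 * ℓ) → Fin H.n}
    (hφ : φ ∈ homs (tightCycle ℓ hℓ) H) (i : ℕ) (hi : i + 2 < 3 * ℓ) :
    ({φ ⟨i, by omega⟩, φ ⟨i + 1, by omega⟩, φ ⟨i + 2, hi⟩} : Finset (Fin H.n)) ∈ H.edges := by
  unfold homs at hφ
  have h1 := (mem_filter.1 hφ).2 (cycEdge ℓ ⟨i, by omega⟩)
    (mem_image.2 ⟨⟨i, by omega⟩, mem_univ _, rfl⟩)
  have h2 : (cycEdge ℓ ⟨i, by omega⟩).image φ =
      {φ ⟨i, by omega⟩, φ ⟨i + 1, by omega⟩, φ ⟨i + 2, hi⟩} := by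
    ext x
    rw [mem_image]
    constructor
    · rintro ⟨w, hw, rfl⟩
      rw [mem_cycEdge] at hw
      obtain ⟨j, hj⟩ := hw
      have hw2 : (w : ℕ) = i + j := by
        rw [hj]
        exact Nat.mod_eq_of_lt (by have := j.2; simp only; omega)
      have hj3 := j.2
      rw [mem_insert, mem_insert, mem_singleton]
      have hc : (j : ℕ) = 0 ∨ (j : ℕ) = 1 ∨ (j : ℕ) = 2 := by omega
      rcases hc with h | h | h
      · left
        congr 1
        exact Fin.ext (by simp only; omega)
      · right; left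
        congr 1
        exact Fin.ext (by simp only; omega)
      · right; right
        congr 1
        exact Fin.ext (by simp only; omega)
    · intro hx
      rw [mem_insert, mem_insert, mem_singleton] at hx
      rcases hx with rfl | rfl | rfl
      · exact ⟨_, mem_cycEdge.2 ⟨0, (Nat.mod_eq_of_lt (by simp; omega)).symm⟩, rfl⟩
      · exact ⟨_, mem_cycEdge.2 ⟨1, (Nat.mod_eq_of_lt (by simp; omega)).symm⟩, rfl⟩
      · exact ⟨_, mem_cycEdge.2 ⟨2, (Nat.mod_eq_of_lt (by simp; omega)).symm⟩, rfl⟩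
  rw [← h2]
  exact h1

/-- a homomorphism to `HH n` is determined by two values -/
lemma homs_le (ℓ : ℕ) (hℓ : 1 ≤ ℓ) (n : ℕ) : (homs (tightCycle ℓ hℓ) (HH n)).card ≤ n ^ 2 := by
  have h1 : (homs (tightCycle ℓ hℓ) (HH n)).card ≤
      (univ : Finset (Fin n × Fin n)).card := by
    refine card_le_card_of_injOn (fun φ : Fin (3 * ℓ) → Fin n =>
      (φ ⟨0, by omega⟩, φ ⟨1, by omega⟩)) (fun _ _ => mem_univ _) ?_
    intro φ hφ ψ hψ h
    rw [mem_coe] at hφ hψ
    simp only [Prod.mk.injEq] at h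
    have key : ∀ i (hi : i < 3 * ℓ), φ ⟨i, hi⟩ = ψ ⟨i, hi⟩ := by
      intro i
      induction i using Nat.strong_induction_on with
      | _ i ih =>
        intro hi
        rcases Nat.lt_or_ge i 2 with h2 | h2
        · have h3 : i = 0 ∨ i = 1 := by omega
          rcases h3 with rfl | rfl
          · exact h.1
          · exact h.2
        · obtain ⟨i, rfl⟩ := Nat.exists_eq_add_of_le' h2
          have e1 := hom_edge hφ i hi
          have e2 := hom_edge hψ i hi
          exact third' (ih i (by omega) (by omega)) (ih (i + 1) (by omega) (by omega)) e1 e2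
    funext i
    exact key i i.2
  refine h1.trans ?_
  rw [card_univ, Fintype.card_prod, Fintype.card_fin, sq]

/-- many edges -/
lemma tup_ge (m : ℕ) : m ^ 2 ≤ (homs (oneEdge 3) (HH (5 * m))).card := by
  have h1 : (univ : Finset (Fin m × Fin m)).card ≤ (homs (oneEdge 3) (HH (5 * m))).card := by
    refine card_le_card_of_injOn (fun p : Fin m × Fin m =>
      (![⟨p.1, by have := p.1.2; omega⟩, ⟨m + p.2, by have := p.2.2; omega⟩,
        ⟨4 * m - p.1 - p.2, by have := p.1.2; omega⟩] : Fin 3 → Fin (5 * m))) ?_ ?_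
    · rintro ⟨u, v⟩ -
      rw [mem_coe]
      unfold homs
      rw [mem_filter]
      refine ⟨mem_univ _, fun e he => ?_⟩
      have he2 : e = univ := mem_singleton.1 he
      subst he2
      have hu := u.2
      have hv := v.2
      set g : Fin 3 → Fin (5 * m) := ![⟨u, by omega⟩, ⟨m + v, by omega⟩,
        ⟨4 * m - u - v, by omega⟩] with hg
      have hinj : Function.Injective g := by
        intro a b hab
        have hab' : (g a : ℕ) = g b := congrArg Fin.val hab
        fin_cases a <;> fin_cases b <;> simp [hg] at hab' ⊢ <;> omega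
      have h2 : univ.image g ∈ (HH (5 * m)).edges := by
        rw [mem_HH, card_image_of_injective _ hinj, sum_image fun a _ b _ h => hinj h]
        refine ⟨by simp, ?_⟩
        rw [Fin.sum_univ_three]
        have : (g 0 : ℕ) + g 1 + g 2 = 5 * m := by
          simp only [hg, Matrix.cons_val_zero, Matrix.cons_val_one, Matrix.cons_val]
          omega
        rw [this]
      exact h2
    · rintro ⟨u, v⟩ - ⟨u', v'⟩ - h
      have h0 := congrArg Fin.val (congrFun h 0)
      have h2 := congrArg Fin.val (congrFun h 1)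
      simp only [Matrix.cons_val_zero, Matrix.cons_val_one] at h0 h2
      have e1 : u = u' := Fin.ext (by simpa using h0)
      have e2 : v = v' := Fin.ext (by simpa using h2)
      rw [e1, e2]
  refine le_trans ?_ h1
  rw [card_univ, Fintype.card_prod, Fintype.card_fin, sq]

/-- the periodic homomorphism -/
lemma homs_pos (ℓ : ℕ) (hℓ : 1 ≤ ℓ) (H : RGraph 3) (g : Fin 3 → Fin H.n)
    (hg : univ.image g ∈ H.edges) : 0 < (homs (tightCycle ℓ hℓ) H).card := by
  rw [card_pos]
  refine ⟨fun i : Fin (3 * ℓ) => g ⟨(i : ℕ) % 3, Nat.mod_lt _ (by norm_num)⟩, ?_⟩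
  unfold homs
  refine mem_filter.2 ⟨mem_univ _, fun f hf => ?_⟩
  obtain ⟨i, -, hif⟩ := mem_image.1 hf
  subst hif
  have hi := i.2
  have h1 : (cycEdge ℓ i).image (fun i : Fin (3 * ℓ) =>
      g ⟨(i : ℕ) % 3, Nat.mod_lt _ (by norm_num)⟩) = univ.image g := by
    ext x
    rw [mem_image, mem_image]
    constructor
    · rintro ⟨w, -, rfl⟩
      exact ⟨_, mem_univ _, rfl⟩
    · rintro ⟨j, -, rfl⟩
      -- the letter with `i + k ≡ j`
      obtain ⟨k, hk⟩ : ∃ k : Fin 3, ((i : ℕ) + k) % 3 = j := by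
        have hj := j.2
        refine ⟨⟨((j : ℕ) + 2 * i) % 3, Nat.mod_lt _ (by norm_num)⟩, ?_⟩
        simp only
        omega
      refine ⟨⟨((i : ℕ) + k) % (3 * ℓ), Nat.mod_lt _ (by omega)⟩, mem_cycEdge.2 ⟨k, rfl⟩, ?_⟩
      congr 1
      apply Fin.ext
      simp only
      rw [Nat.mod_mul_right_mod]
      exact hk
  have h2 : (cycEdge ℓ i).image (fun i : Fin (3 * ℓ) =>
      g ⟨(i : ℕ) % 3, Nat.mod_lt _ (by norm_num)⟩) ∈ H.edges := by
    rw [h1]
    exact hg
  exact h2

/-- every value of the logarithmic quotient is below the Sidorenko exponent -/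
lemma le_sidExp (F H : RGraph 3) (s : ℝ) (hs : 0 ≤ s)
    (h : density F H = density (oneEdge 3) H ^ s) (hp : 0 < density F H) :
    (s : EReal) ≤ sidExp F := le_sSup ⟨s, hs, rfl, H, h, hp⟩

/-- **Job LOW.** -/
theorem t_LOW : S_LOW := by
  intro ℓ hℓ
  have hℓ' : (1 : ℝ) ≤ ℓ := by exact_mod_cast hℓ
  refine le_of_forall_lt fun c hc => ?_
  obtain ⟨t, hct, htl⟩ := EReal.lt_iff_exists_real_btwn.1 hc
  have ht : t < 3 * ℓ - 2 := by exact_mod_cast htl
  refine lt_of_lt_of_le hct ?_
  -- choose a large `m`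
  set δ : ℝ := 3 * ℓ - 2 - t with hδ
  have hδ0 : 0 < δ := by rw [hδ]; linarith
  set A : ℝ := |t| * Real.log 25 / δ with hA
  obtain ⟨m, hm⟩ := exists_nat_gt (Real.exp A)
  have hmr : (0 : ℝ) < m := lt_trans (Real.exp_pos _) hm
  have hm0 : 0 < m := by exact_mod_cast hmr
  have hm1 : (1 : ℝ) ≤ m := by exact_mod_cast hm0
  set n : ℝ := 5 * m with hn
  have hn5 : 5 ≤ n := by rw [hn]; linarith
  have hL : A ≤ Real.log n := by
    have h1 : Real.exp A ≤ n := by rw [hn]; linarith
    rw [← Real.log_exp A]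
    exact Real.log_le_log (Real.exp_pos _) h1
  have hL0 : 0 < Real.log n := Real.log_pos (by linarith)
  -- the densities
  set a : ℝ := density (tightCycle ℓ hℓ) (HH (5 * m)) with ha
  set p : ℝ := density (oneEdge 3) (HH (5 * m)) with hp
  have hnc : (((HH (5 * m)).n : ℕ) : ℝ) = n := by
    rw [hn]
    show (((5 * m : ℕ)) : ℝ) = 5 * m
    push_cast
    ring
  have ha' : a = ((homs (tightCycle ℓ hℓ) (HH (5 * m))).card : ℝ) / n ^ (3 * ℓ) := by
    rw [ha]
    unfold density
    rw [hnc]
    rfl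
  have hp' : p = ((homs (oneEdge 3) (HH (5 * m))).card : ℝ) / n ^ 3 := by
    rw [hp]
    unfold density
    rw [hnc]
    rfl
  have hn0 : 0 < n := by linarith
  have hp1 : 1 / (25 * n) ≤ p := by
    have h1 : ((m ^ 2 : ℕ) : ℝ) ≤ ((homs (oneEdge 3) (HH (5 * m))).card : ℝ) := by
      exact_mod_cast tup_ge m
    rw [hp', div_le_div_iff₀ (by positivity) (by positivity)]
    push_cast at h1
    have h2 : n ^ 2 = 25 * (m : ℝ) ^ 2 := by rw [hn]; ring
    nlinarith [mul_le_mul_of_nonneg_right h1 (by positivity : (0 : ℝ) ≤ 25 * n)]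
  have hp0 : 0 < p := lt_of_lt_of_le (by positivity) hp1
  have hp2 : p < 1 := by
    rw [hp', div_lt_one (by positivity)]
    have h1 : (homs (oneEdge 3) (HH (5 * m))).card < Fintype.card (Fin 3 → Fin (5 * m)) := by
      rw [← card_univ]
      refine card_lt_card (Finset.ssubset_univ_iff.2 ?_)
      intro h
      have h2 : (fun _ => ⟨0, by omega⟩ : Fin 3 → Fin (5 * m)) ∈
          homs (oneEdge 3) (HH (5 * m)) := by
        rw [h]
        exact mem_univ _
      unfold homs at h2
      have h3 := (mem_filter.1 h2).2 univ (mem_singleton_self _)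
      have h4 := (HH (5 * m)).uniform _ h3
      have h5 : ((univ : Finset (Fin 3)).image
          (fun _ => ⟨0, by omega⟩ : Fin 3 → Fin (5 * m))).card ≤ 1 := by
        rw [card_le_one]
        intro x hx y hy
        obtain ⟨_, _, rfl⟩ := mem_image.1 hx
        obtain ⟨_, _, rfl⟩ := mem_image.1 hy
        rfl
      have h6 : ((univ : Finset (Fin 3)).image
          (fun _ => ⟨0, by omega⟩ : Fin 3 → Fin (5 * m))).card = 3 := h4
      omega
    rw [Fintype.card_fun, Fintype.card_fin, Fintype.card_fin] at h1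
    have h2 : (((homs (oneEdge 3) (HH (5 * m))).card : ℕ) : ℝ) < (((5 * m) ^ 3 : ℕ) : ℝ) := by
      exact_mod_cast h1
    rw [hn]
    push_cast at h2
    exact h2
  have ha0 : 0 < a := by
    obtain ⟨g, hg⟩ : (homs (oneEdge 3) (HH (5 * m))).Nonempty := by
      rw [← card_pos]
      exact lt_of_lt_of_le (by positivity) (tup_ge m)
    unfold homs at hg
    have h3 := (mem_filter.1 hg).2 univ (mem_singleton_self _)
    have h4 := homs_pos ℓ hℓ (HH (5 * m)) g h3
    rw [ha']
    have h5 : (0 : ℝ) < ((homs (tightCycle ℓ hℓ) (HH (5 * m))).card : ℝ) := by exact_mod_cast h4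
    positivity
  have ha1 : a ≤ n ^ 2 / n ^ (3 * ℓ) := by
    rw [ha']
    have h1 : ((homs (tightCycle ℓ hℓ) (HH (5 * m))).card : ℝ) ≤ n ^ 2 := by
      have h2 := homs_le ℓ hℓ (5 * m)
      have h3 : (((homs (tightCycle ℓ hℓ) (HH (5 * m))).card : ℕ) : ℝ) ≤ (((5 * m) ^ 2 : ℕ) : ℝ) := by
        exact_mod_cast h2
      rw [hn]
      push_cast at h3
      exact h3
    gcongr
  have hloga : Real.log a ≤ -(3 * ℓ - 2) * Real.log n := by
    have h1 := Real.log_le_log ha0 ha1
    rw [Real.log_div (by positivity) (by positivity), Real.log_pow, Real.log_pow] at h1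
    refine h1.trans (le_of_eq ?_)
    push_cast
    ring
  have hlogp : -(Real.log 25 + Real.log n) ≤ Real.log p := by
    have h1 := Real.log_le_log (by positivity) hp1
    rw [Real.log_div (by norm_num) (by positivity), Real.log_one,
      Real.log_mul (by norm_num) (by positivity), zero_sub] at h1
    exact h1
  have hlp0 : Real.log p < 0 := Real.log_neg hp0 hp2
  have hla0 : Real.log a ≤ 0 := by
    refine hloga.trans ?_
    have : 0 ≤ (3 * (ℓ : ℝ) - 2) * Real.log n := by
      apply mul_nonneg _ hL0.le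
      linarith
    linarith
  set s : ℝ := Real.log a / Real.log p with hs
  have hs0 : 0 ≤ s := div_nonneg_of_nonpos hla0 hlp0.le
  have hts : t ≤ s := by
    rw [hs, le_div_iff_of_neg hlp0]
    by_cases ht0 : t ≤ 0
    · exact hla0.trans (mul_nonneg_of_nonpos_of_nonpos ht0 hlp0.le)
    · rw [not_le] at ht0
      have h1 : t * -(Real.log 25 + Real.log n) ≤ t * Real.log p :=
        mul_le_mul_of_nonneg_left hlogp ht0.le
      have h2 : t * Real.log 25 ≤ δ * Real.log n := by
        have h3 : t * Real.log 25 / δ ≤ Real.log n := by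
          rw [hA, abs_of_pos ht0] at hL
          exact hL
        rw [div_le_iff₀ hδ0] at h3
        linarith
      rw [hδ] at h2
      nlinarith
  have hts' : (t : EReal) ≤ (s : EReal) := by exact_mod_cast hts
  refine hts'.trans (le_sidExp _ (HH (5 * m)) s hs0 ?_ ha0)
  show a = p ^ s
  rw [Real.rpow_def_of_pos hp0, hs, mul_div_cancel₀ _ hlp0.ne, Real.exp_log ha0]

end Pool.Agent.Q53.TS
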